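import Pool.Agent.Helper30.Bishop.Oper

set_option autoImplicit false

open MeasureTheory Filter Topology
open scoped ENNReal
open Pool.Agent.Helper30.Bishop

namespace Pool.Agent.Results.MP_7f73f7_an.PositiveEntropy

/-- For every ergodic measure-preserving map `T` of `(0,1)` with positive Kolmogorov–Sinai entropy,
the Bishop operator `f ↦ x · f(T x)` on complex `L²(0,1)` has a closed invariant subspace other
than `0` and the whole space. -/
theorem result :
    ∀ T : ℝ → ℝ, Ergodic T (volume.restrict (Set.Ioo (0:ℝ) 1)) →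
    0 < ksEntropy (volume.restrict (Set.Ioo (0:ℝ) 1)) T →
    ∀ A : Lp ℂ (2 : ENNReal) (volume.restrict (Set.Ioo (0:ℝ) 1)) →L[ℂ]
        Lp ℂ (2 : ENNReal) (volume.restrict (Set.Ioo (0:ℝ) 1)),
    (∀ f : Lp ℂ (2 : ENNReal) (volume.restrict (Set.Ioo (0:ℝ) 1)),
      (A f : ℝ → ℂ) =ᵐ[volume.restrict (Set.Ioo (0:ℝ) 1)]
        fun x => (x : ℂ) * (f : ℝ → ℂ) (T x)) →
    ∃ V : Submodule ℂ (Lp ℂ (2 : ENNReal) (volume.restrict (Set.Ioo (0:ℝ) 1))),
      IsClosed (V : Set (Lp ℂ (2 : ENNReal) (volume.restrict (Set.Ioo (0:ℝ) 1)))) ∧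
      V ≠ ⊥ ∧ V ≠ ⊤ ∧ ∀ v ∈ V, A v ∈ V := by
  intro T hT hent A hA
  -- a partition with positive entropy
  unfold ksEntropy at hent
  rw [lt_iSup_iff] at hent
  obtain ⟨r, hent⟩ := hent
  rw [lt_iSup_iff] at hent
  obtain ⟨α, hent⟩ := hent
  rw [lt_iSup_iff] at hent
  obtain ⟨hα, hent⟩ := hent
  obtain ⟨b, hb0, hb⟩ := exists_between hent
  have hfreq := frequently_lt_of_lt_limsup (by isBoundedDefault) hb
  have hbtop : b ≠ ⊤ := ne_top_of_lt hb
  set c : ℝ := b.toReal with hc
  have hc0 : 0 < c := ENNReal.toReal_pos hb0.ne' hbtop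
  have hfreq2 : ∃ᶠ n : ℕ in atTop, c < shannon m01 (names T α n) / n := by
    refine hfreq.mono fun n hn => ?_
    have h1 := (ENNReal.toReal_lt_of_lt_ofReal (a := b)
      (b := shannon m01 (names T α n) / n) hn)
    exact h1
  set c0 : ℝ := c / (4 * (r + 1)) with hc0def
  have hc0pos : 0 < c0 := by positivity
  obtain ⟨Z, hZ, hsum, g, hg, ⟨M, hM⟩, ψ, hψ, hco⟩ := exists_cohom hT hc0pos
  refine ⟨VV T Z g hg M hM, isClosed_VV hT.measurable hZ hg hM, VV_ne_bot hg hM, ?_,
    VV_invariant hT.toMeasurePreserving hg hM hψ hco A hA⟩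
  intro htop
  -- every measurable set belongs to the past up to null sets
  have hbound : ∀ i : Fin r, ∃ C : ℝ, ∀ n : ℕ,
      shannon m01 (names T (ind (α ⁻¹' {i})) n) ≤ n * (c0 + c0) + C := by
    intro i
    have hS : MeasurableSet (α ⁻¹' {i}) := hα (measurableSet_singleton i)
    obtain ⟨S', hS', hSS'⟩ := sets_of_VV_eq_top hg hM htop hS
    exact shannon_names_le_of_past hT.toMeasurePreserving hZ hsum hS hS' hSS' hc0pos
  choose C hC using hbound
  have hle : ∀ n : ℕ, shannon m01 (names T α n) ≤ n * (c / 2) + ∑ i, C i := by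
    intro n
    refine (shannon_names_le_sum hT.toMeasurePreserving hα n).trans ?_
    refine (Finset.sum_le_sum fun i _ => hC i n).trans ?_
    rw [Finset.sum_add_distrib, Finset.sum_const, Finset.card_univ, Fintype.card_fin, nsmul_eq_mul]
    have h1 : (r : ℝ) * (n * (c0 + c0)) ≤ n * (c / 2) := by
      have h2 : (r : ℝ) * (c0 + c0) ≤ c / 2 := by
        rw [hc0def]
        have h3 : (r : ℝ) * (c / (4 * (r + 1)) + c / (4 * (r + 1))) = c / 2 * (r / (r + 1)) := by
          field_simp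
          ring
        rw [h3]
        have h4 : (r : ℝ) / (r + 1) ≤ 1 := by
          rw [div_le_one (by positivity)]; linarith
        have h5 : 0 ≤ c / 2 := by positivity
        nlinarith
      have h3 := mul_le_mul_of_nonneg_left h2 (Nat.cast_nonneg (α := ℝ) n)
      linarith
    linarith
  have hlim : Tendsto (fun n : ℕ => (∑ i, C i) / (n : ℝ)) atTop (𝓝 0) :=
    tendsto_const_div_atTop_nhds_zero_nat _
  have hev : ∀ᶠ n : ℕ in atTop, (∑ i, C i) / (n : ℝ) < c / 2 :=
    hlim.eventually (gt_mem_nhds (by positivity))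
  obtain ⟨n, ⟨hn1, hn2⟩, hn3⟩ := ((hfreq2.and_eventually hev).and_eventually
    (eventually_gt_atTop 0)).exists
  have hnpos : (0:ℝ) < n := by exact_mod_cast hn3
  rw [lt_div_iff₀ hnpos] at hn1
  rw [div_lt_iff₀ hnpos] at hn2
  have := hle n
  nlinarith

end Pool.Agent.Results.MP_7f73f7_an.PositiveEntropy
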